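import Mathlib

/-!
# Randomized integration on classes of smooth functions: definitions
-/

open MeasureTheory
open scoped ENNReal

namespace Pool.CEX

/-- The cube `[0, 1]^d`. -/
def cube (d : ℕ) : Set (Fin d → ℝ) := {x | ∀ i, 0 ≤ x i ∧ x i ≤ 1}

/-- The open cube `(0, 1)^d`. -/
def openCube (d : ℕ) : Set (Fin d → ℝ) := {x | ∀ i, 0 < x i ∧ x i < 1}

/-- `f` is continuous on `K` and `C^k` on `U`, and on `U` all its derivatives of order at most `k`
in directions from `B` are bounded by `1`. -/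
def Smooth {E : Type} [NormedAddCommGroup E] [NormedSpace ℝ E] (k : ℕ) (K U B : Set E)
    (f : E → ℝ) : Prop :=
  ContinuousOn f K ∧ ContDiffOn ℝ k f U ∧
    ∀ j ≤ k, ∀ v : Fin j → E, (∀ i, v i ∈ B) → ∀ x ∈ U, |iteratedFDeriv ℝ j f x v| ≤ 1

/-- The coordinate vectors of `ℝ^d`. -/
def basis (d : ℕ) : Set (Fin d → ℝ) := {v | ∃ i, ∀ j, v j = if j = i then 1 else 0}

/-- The class `F_d^k`. -/
def F (d k : ℕ) : Set ((Fin d → ℝ) → ℝ) := {f | Smooth k (cube d) (openCube d) (basis d) f}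

/-- The integral over `K`. -/
noncomputable def integ {E : Type} [MeasureSpace E] (K : Set E) (f : E → ℝ) : ℝ := ∫ x in K, f x

/-- An adaptive algorithm using values of functions at points of `K`: give the output, or ask for
the value at a point of `K` and go on, depending on this value. -/
inductive Alg {E : Type} (K : Set E) : Type
  | out : ℝ → Alg K
  | query (x : E) : x ∈ K → (ℝ → Alg K) → Alg K

/-- The output and the number of function values used, for the input `f`. -/
noncomputable def run {E : Type} {K : Set E} (f : E → ℝ) (A : Alg K) : ℝ × ℕ :=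
  Alg.rec (motive := fun _ => ℝ × ℕ) (fun y => (y, 0))
    (fun x _ _ r => ((r (f x)).1, (r (f x)).2 + 1)) A

/-- Some randomized algorithm with randomness `Ω` has for every `f ∈ F_d^k` expected number of
values at most `n` and expected error (upper integral, by measurable majorants) at most `e`. -/
def Achieves (Ω : Type) [MeasurableSpace Ω] (d k n : ℕ) (e : ℝ≥0∞) : Prop :=
  ∃ (P : Measure Ω) (A : Ω → Alg (cube d)), IsProbabilityMeasure P ∧ ∀ f ∈ F d k,
    Measurable (fun ω => (run f (A ω)).2) ∧ ∫⁻ ω, (run f (A ω)).2 ∂P ≤ n ∧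
    ∃ g : Ω → ℝ≥0∞, Measurable g ∧ ∫⁻ ω, g ω ∂P ≤ e ∧
      ∀ ω, ENNReal.ofReal |integ (cube d) f - (run f (A ω)).1| ≤ g ω

/-- The `n`-th minimal randomized error on `F_d^k`. -/
noncomputable def eRan (n d k : ℕ) : ℝ≥0∞ :=
  sInf {e | ∃ (Ω : Type) (_ : MeasurableSpace Ω), Achieves Ω d k n e}

/-- The exponents `t` with `e^ran(n, F_d^k) ≤ C d^t n^(-k/d - 1/2)` for all `d, n ≥ 1`. -/
def exponents (k : ℕ) : Set ℝ :=
  {t | ∃ C : ℝ, ∀ d n : ℕ, 1 ≤ d → 1 ≤ n →
    eRan n d k ≤ ENNReal.ofReal (C * (d : ℝ) ^ t * (n : ℝ) ^ (-(k : ℝ) / d - 1 / 2))}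

end Pool.CEX
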