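import Pool.Agent.H79.CEX.Defs
import Pool.Agent.H28.RI.UpperFinal
import Pool.Agent.H28.RI.Lower

/-!
# The critical exponent: from the theorem of `Pool.Agent.H28.RI` to the short form
-/

open Set MeasureTheory Filter
open scoped ENNReal

namespace Pool.CEX

theorem F_eq (d k : ℕ) : F d k = Pool.Agent.H28.RI.F d k := by
  ext f
  constructor
  · rintro ⟨h1, h2, h3⟩
    refine ⟨h1, h2, fun j hj v x hx => ?_⟩
    refine h3 j hj (fun i => Pi.single (v i) 1) (fun i => ⟨v i, fun l => ?_⟩) x hx
    rw [Pi.single_apply]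
  · rintro ⟨h1, h2, h3⟩
    refine ⟨h1, h2, fun j hj v hv x hx => ?_⟩
    choose e he using hv
    have : v = fun i => Pi.single (e i) 1 := by
      funext i l
      rw [he i l, Pi.single_apply]
    rw [this]
    exact h3 j hj e x hx

/-- Old algorithms as new ones. -/
def toNew {d : ℕ} : Pool.Agent.H28.RI.Alg d → Alg (cube d)
  | .out r => .out r
  | .query x next => .query x.1 x.2 (fun y => toNew (next y))

/-- New algorithms as old ones. -/
def toOld {d : ℕ} : Alg (cube d) → Pool.Agent.H28.RI.Alg d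
  | .out r => .out r
  | .query x hx next => .query ⟨x, hx⟩ (fun y => toOld (next y))

theorem run_toNew {d : ℕ} (f : (Fin d → ℝ) → ℝ) (A : Pool.Agent.H28.RI.Alg d) :
    run f (toNew A) = (A.output f, A.cost f) := by
  induction A with
  | out r => rfl
  | query x next ih =>
    show ((run f (toNew (next (f x)))).1, (run f (toNew (next (f x)))).2 + 1) = _
    rw [ih (f x)]
    rfl

theorem run_toOld {d : ℕ} (f : (Fin d → ℝ) → ℝ) (A : Alg (cube d)) :
    run f A = ((toOld A).output f, (toOld A).cost f) := by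
  induction A with
  | out r => rfl
  | query x hx next ih =>
    show ((run f (next (f x))).1, (run f (next (f x))).2 + 1) = _
    rw [ih (f x)]
    rfl

theorem eRan_eq (n d k : ℕ) : eRan n d k = Pool.Agent.H28.RI.eRan n d k := by
  apply le_antisymm
  · refine le_iInf₂ fun R hR => ?_
    refine le_of_forall_gt_imp_ge_of_dense fun e he => ?_
    refine sInf_le ⟨R.Ω, R.mΩ, R.μ, fun ω => toNew (R.alg ω), R.prob, fun f hf => ?_⟩
    rw [F_eq] at hf
    simp only [run_toNew]
    refine ⟨R.meas f hf, ?_, ?_⟩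
    · refine le_trans ?_ hR
      exact le_iSup₂ (f := fun (f : (Fin d → ℝ) → ℝ) (_ : f ∈ Pool.Agent.H28.RI.F d k) =>
        @lintegral R.Ω R.mΩ R.μ (fun ω => (((R.alg ω).cost f : ℕ) : ℝ≥0∞))) f hf
    · have h1 : @Pool.Agent.H28.RI.upperIntegral R.Ω R.mΩ R.μ
          (fun ω => ENNReal.ofReal |Pool.Agent.H28.RI.S f - (R.alg ω).output f|) < e := by
        refine lt_of_le_of_lt ?_ he
        exact le_iSup₂ (f := fun (f : (Fin d → ℝ) → ℝ) (_ : f ∈ Pool.Agent.H28.RI.F d k) =>
          @Pool.Agent.H28.RI.upperIntegral R.Ω R.mΩ R.μ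
            (fun ω => ENNReal.ofReal |Pool.Agent.H28.RI.S f - (R.alg ω).output f|)) f hf
      unfold Pool.Agent.H28.RI.upperIntegral at h1
      simp only [iInf_lt_iff] at h1
      obtain ⟨g, hg, hmaj, hlt⟩ := h1
      exact ⟨g, hg, hlt.le, hmaj⟩
  · refine le_sInf ?_
    rintro e ⟨Ω, mΩ, P, A, hP, h⟩
    let R : Pool.Agent.H28.RI.RandAlg d k :=
      { Ω := Ω, mΩ := mΩ, μ := P, prob := hP, alg := fun ω => toOld (A ω),
        meas := fun f hf => by
          have := (h f (by rw [F_eq]; exact hf)).1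
          simp only [run_toOld] at this
          exact this }
    have hcard : R.card ≤ n := by
      refine iSup₂_le fun f hf => ?_
      have := (h f (by rw [F_eq]; exact hf)).2.1
      simp only [run_toOld] at this
      exact this
    refine (iInf₂_le R hcard).trans ?_
    refine iSup₂_le fun f hf => ?_
    obtain ⟨g, hg, hle, hmaj⟩ := (h f (by rw [F_eq]; exact hf)).2.2
    simp only [run_toOld] at hmaj
    refine le_trans ?_ hle
    unfold Pool.Agent.H28.RI.upperIntegral
    exact iInf_le_of_le g (iInf_le_of_le hg (iInf_le_of_le hmaj le_rfl))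

theorem exponents_eq (k : ℕ) : exponents k = Pool.Agent.H28.RI.exponents k := by
  unfold exponents Pool.Agent.H28.RI.exponents
  simp only [eRan_eq]

open Pool.Agent.H28.RI in
theorem oldForm (k : ℕ) (hk : 1 ≤ k) :
    IsLeast (Pool.Agent.H28.RI.exponents k) 0 ∧ Pool.Agent.H28.RI.tCrit k = 0 := by
  have h0 : (0 : ℝ) ∈ Pool.Agent.H28.RI.exponents k := by
    obtain ⟨C, hC⟩ := upper_bound hk
    refine ⟨C, fun d n hd hn => ?_⟩
    rw [Real.rpow_zero, mul_one]
    exact hC d n hd hn
  have hlb : (0 : ℝ) ∈ lowerBounds (Pool.Agent.H28.RI.exponents k) := by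
    rintro t ⟨C, hC⟩
    by_contra ht
    push Not at ht
    obtain ⟨c, hc, hlow⟩ := lower_bound k
    have h1 : ∀ d : ℕ, 1 ≤ d → c ≤ C * (d : ℝ) ^ t := by
      intro d hd
      have h2 := (hlow d hd).trans (hC d 1 hd le_rfl)
      simp only [Nat.cast_one, Real.one_rpow, mul_one] at h2
      by_contra hcon
      push Not at hcon
      exact absurd h2 (not_le.2 ((ENNReal.ofReal_lt_ofReal_iff hc).2 hcon))
    have h3 : Tendsto (fun d : ℕ => C * (d : ℝ) ^ t) atTop (nhds (C * 0)) := by
      refine Tendsto.const_mul _ ?_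
      have h4 : Tendsto (fun x : ℝ => x ^ t) atTop (nhds 0) := by
        have := tendsto_rpow_neg_atTop (y := -t) (by linarith)
        simpa using this
      exact h4.comp tendsto_natCast_atTop_atTop
    rw [mul_zero] at h3
    have h5 := ge_of_tendsto h3 (eventually_atTop.2 ⟨1, h1⟩)
    linarith
  exact ⟨⟨h0, hlb⟩, IsLeast.csInf_eq ⟨h0, hlb⟩⟩

theorem main (k : ℕ) (hk : 1 ≤ k) : IsLeast (exponents k) 0 ∧ sInf (exponents k) = 0 := by
  rw [exponents_eq]
  exact oldForm k hk

end Pool.CEX
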